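import Pool.Agent.Helper30.UP.St

/-!
# Project UP, module SD: small doubling from good pairs
-/

set_option autoImplicit false

noncomputable section

namespace Pool.Agent.Helper74.UP

open Finset Pool.Agent.Helper30.UP
open scoped Classical Pointwise

/-- Cauchy-Schwarz: the number of different values -/
theorem card_sq_le {c n : ℕ} (s : Fin n → E c) (I A : Finset (Fin n)) (hA : A ⊆ I) :
    A.card ^ 2 ≤ (A.image s).card * ((I ×ˢ I).filter (fun p => s p.1 = s p.2)).card := by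
  have h1 : A.card = ∑ v ∈ A.image s, (A.filter (fun i => s i = v)).card :=
    card_eq_sum_card_fiberwise (fun i hi => mem_image_of_mem s hi)
  have h2 : ∑ v ∈ A.image s, (A.filter (fun i => s i = v)).card ^ 2 =
      ((A ×ˢ A).filter (fun p => s p.1 = s p.2)).card := by
    have h3 : ∀ p ∈ (A ×ˢ A).filter (fun p => s p.1 = s p.2), s p.1 ∈ A.image s := by
      intro p hp
      exact mem_image_of_mem s (mem_product.1 (mem_filter.1 hp).1).1
    rw [card_eq_sum_card_fiberwise h3]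
    refine sum_congr rfl fun v _ => ?_
    rw [pow_two, ← card_product]
    congr 1
    ext ⟨i, j⟩
    simp only [mem_product, mem_filter]
    constructor
    · rintro ⟨⟨hi, hi'⟩, hj, hj'⟩
      exact ⟨⟨⟨hi, hj⟩, by rw [hi', hj']⟩, hi'⟩
    · rintro ⟨⟨⟨hi, hj⟩, hij⟩, hi'⟩
      exact ⟨⟨hi, hi'⟩, hj, by rw [← hij, hi']⟩
  have h4 : ((A ×ˢ A).filter (fun p => s p.1 = s p.2)).card ≤
      ((I ×ˢ I).filter (fun p => s p.1 = s p.2)).card :=
    card_le_card (filter_subset_filter _ (product_subset_product hA hA))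
  calc A.card ^ 2 = (∑ v ∈ A.image s, (A.filter (fun i => s i = v)).card) ^ 2 := by rw [← h1]
    _ ≤ (A.image s).card * ∑ v ∈ A.image s, (A.filter (fun i => s i = v)).card ^ 2 :=
        sq_sum_le_card_mul_sum_sq
    _ ≤ _ := by
        rw [h2]
        exact Nat.mul_le_mul_left _ h4

/-- the set of large coefficients -/
def TT {c : ℕ} (S : Finset (E c)) (θ : ℝ) : Finset (E c) :=
  univ.filter (fun d => θ / 2 * S.card ≤ ∑ x ∈ S, chi x d)

theorem card_TT {c : ℕ} (S : Finset (E c)) (θ : ℝ) (hθ : 0 < θ) (hS : S.Nonempty) :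
    ((TT S θ).card : ℝ) * (θ ^ 2 * S.card) ≤ 4 * 2 ^ c := by
  have hS' : (0 : ℝ) < S.card := by exact_mod_cast hS.card_pos
  have h1 : ∑ d : E c, (∑ x ∈ S, chi x d) ^ 2 = (2 : ℝ) ^ c * (S.card : ℕ) := by
    rw [← parseval_inj S id (fun i _ j _ h => h)]
    refine sum_congr rfl fun d _ => ?_
    congr 1
    exact sum_congr rfl fun x _ => chi_comm x d
  have h2 : ∑ d ∈ TT S θ, (θ / 2 * S.card) ^ 2 ≤ ∑ d : E c, (∑ x ∈ S, chi x d) ^ 2 := by
    calc ∑ d ∈ TT S θ, (θ / 2 * S.card) ^ 2 ≤ ∑ d ∈ TT S θ, (∑ x ∈ S, chi x d) ^ 2 := by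
          refine sum_le_sum fun d hd => ?_
          have h3 := (mem_filter.1 hd).2
          exact pow_le_pow_left₀ (by positivity) h3 2
      _ ≤ _ := sum_le_sum_of_subset_of_nonneg (filter_subset _ _) (fun d _ _ => sq_nonneg _)
  rw [h1, sum_const, nsmul_eq_mul] at h2
  have h3 : ((TT S θ).card : ℝ) * (θ ^ 2 * S.card) * S.card ≤ 4 * 2 ^ c * S.card := by
    nlinarith
  exact le_of_mul_le_mul_right h3 hS'

theorem hSD : StSD := by
  intro θ κ hθ hθ1 hκ
  refine ⟨256 * κ ^ 6 / θ ^ 4, ?_, ?_⟩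
  · have h1 : θ ^ 4 ≤ 1 := pow_le_one₀ hθ.le hθ1
    have h2 : 1 ≤ κ ^ 6 := one_le_pow₀ hκ
    rw [le_div_iff₀ (by positivity)]
    nlinarith
  intro c n s I A S hI hS hAI hm hIA hbad
  set m := ((I ×ˢ I).filter (fun p => s p.1 = s p.2)).card with hmdef
  have hIpos : (0 : ℝ) < I.card := by exact_mod_cast hI.card_pos
  have hSpos : (0 : ℝ) < S.card := by exact_mod_cast hS.card_pos
  have hApos : 0 < A.card := by
    rcases Nat.eq_zero_or_pos A.card with h | h
    · rw [h] at hIA; simp at hIA; exact absurd hIA hI.ne_empty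
    · exact h
  have hmpos : 0 < m := by
    obtain ⟨i, hi⟩ := hI
    exact card_pos.2 ⟨(i, i), mem_filter.2 ⟨mem_product.2 ⟨hi, hi⟩, rfl⟩⟩
  -- bad partners
  let bd : Fin n → Finset (Fin n) := fun i =>
    A.filter (fun j => ∑ x ∈ S, chi x (s i + s j) < θ / 2 * S.card)
  let A' := A.filter (fun i => 4 * (bd i).card ≤ A.card)
  have hA'A : A' ⊆ A := filter_subset _ _
  have hsumbad : ∑ i ∈ A, (bd i).card =
      ((A ×ˢ A).filter (fun p => ∑ x ∈ S, chi x (s p.1 + s p.2) < θ / 2 * S.card)).card := by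
    have h3 : ∀ p ∈ (A ×ˢ A).filter (fun p => ∑ x ∈ S, chi x (s p.1 + s p.2) < θ / 2 * S.card),
        p.1 ∈ A := fun p hp => (mem_product.1 (mem_filter.1 hp).1).1
    rw [card_eq_sum_card_fiberwise h3]
    refine sum_congr rfl fun i hi => ?_
    rw [← card_image_of_injective (bd i) (f := fun j => (i, j)) (fun a b h => (Prod.mk.inj h).2)]
    congr 1
    ext ⟨a, j⟩
    simp only [mem_image, mem_filter, mem_product, Prod.mk.injEq, bd]
    constructor
    · rintro ⟨j', ⟨h1, h2⟩, rfl, rfl⟩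
      exact ⟨⟨⟨hi, h1⟩, h2⟩, rfl⟩
    · rintro ⟨⟨⟨h1, h2⟩, h3⟩, rfl⟩
      exact ⟨j, ⟨h2, h3⟩, rfl, rfl⟩
  have hA2 : A.card ≤ 2 * A'.card := by
    have h1 : (A \ A').card * A.card ≤ ∑ i ∈ A \ A', 4 * (bd i).card := by
      rw [← smul_eq_mul, ← sum_const]
      refine sum_le_sum fun i hi => ?_
      obtain ⟨hi1, hi2⟩ := mem_sdiff.1 hi
      have h2 : ¬ 4 * (bd i).card ≤ A.card := fun h => hi2 (mem_filter.2 ⟨hi1, h⟩)
      omega
    have h2 : ∑ i ∈ A \ A', 4 * (bd i).card ≤ 4 * ∑ i ∈ A, (bd i).card := by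
      rw [← mul_sum]
      exact Nat.mul_le_mul_left _ (sum_le_sum_of_subset sdiff_subset)
    have h3 : 2 * ((A \ A').card * A.card) ≤ A.card * A.card := by
      have := h1.trans h2
      rw [hsumbad] at this
      rw [pow_two] at hbad
      omega
    have h4 : 2 * (A \ A').card ≤ A.card := by
      rw [← mul_assoc] at h3
      exact Nat.le_of_mul_le_mul_right h3 hApos
    have h5 := card_sdiff_add_card_eq_card hA'A
    omega
  have hA'pos : 0 < A'.card := by omega
  set B := A'.image s with hB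
  have hBne : B.Nonempty := (card_pos.1 hA'pos).image s
  have hBm : A'.card ^ 2 ≤ B.card * m := card_sq_le s I A' (hA'A.trans hAI)
  -- the pairs in `T`
  set T := TT S θ with hT
  have hgood : ∀ i ∈ A', ∀ j ∈ A, j ∉ bd i → s i + s j ∈ T := by
    intro i _ j hj hji
    refine mem_filter.2 ⟨mem_univ _, ?_⟩
    by_contra h
    exact hji (mem_filter.2 ⟨hj, not_le.1 h⟩)
  have hcount : ∀ d ∈ B + B, A.card ^ 2 ≤
      4 * m * ((T ×ˢ T).filter (fun p => p.1 + p.2 = d)).card := by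
    intro d hd
    obtain ⟨v1, hv1, v2, hv2, rfl⟩ := mem_add.1 hd
    obtain ⟨i1, hi1, rfl⟩ := mem_image.1 hv1
    obtain ⟨i2, hi2, rfl⟩ := mem_image.1 hv2
    let G := A \ (bd i1 ∪ bd i2)
    have hG : A.card ≤ 2 * G.card := by
      have h1 : A.card ≤ G.card + (bd i1 ∪ bd i2).card := by
        exact card_le_card_sdiff_add_card (s := A) (t := bd i1 ∪ bd i2)
      have h2 := card_union_le (bd i1) (bd i2)
      have h3 := (mem_filter.1 hi1).2
      have h4 := (mem_filter.1 hi2).2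
      omega
    have hGm : G.card ^ 2 ≤ (G.image s).card * m := card_sq_le s I G (sdiff_subset.trans hAI)
    have hGT : (G.image s).card ≤ ((T ×ˢ T).filter (fun p => p.1 + p.2 = s i1 + s i2)).card := by
      rw [← card_image_of_injective (G.image s) (f := fun v => (s i1 + v, s i2 + v))
        (fun a b h => add_left_cancel (Prod.mk.inj h).1)]
      apply card_le_card
      intro p hp
      obtain ⟨v, hv, rfl⟩ := mem_image.1 hp
      obtain ⟨j, hj, rfl⟩ := mem_image.1 hv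
      obtain ⟨hj1, hj2⟩ := mem_sdiff.1 hj
      rw [mem_union, not_or] at hj2
      refine mem_filter.2 ⟨mem_product.2 ⟨hgood i1 hi1 j hj1 hj2.1, hgood i2 hi2 j hj1 hj2.2⟩, ?_⟩
      show s i1 + s j + (s i2 + s j) = s i1 + s i2
      rw [add_add_add_comm, E_add_self, add_zero]
    calc A.card ^ 2 ≤ (2 * G.card) ^ 2 := Nat.pow_le_pow_left hG 2
      _ = 4 * G.card ^ 2 := by ring
      _ ≤ 4 * ((G.image s).card * m) := Nat.mul_le_mul_left _ hGm
      _ ≤ 4 * (((T ×ˢ T).filter (fun p => p.1 + p.2 = s i1 + s i2)).card * m) :=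
          Nat.mul_le_mul_left _ (Nat.mul_le_mul_right _ hGT)
      _ = _ := by ring
  have hBB : (B + B).card * A.card ^ 2 ≤ 4 * m * T.card ^ 2 := by
    calc (B + B).card * A.card ^ 2 = ∑ d ∈ B + B, A.card ^ 2 := by
          rw [sum_const, smul_eq_mul]
      _ ≤ ∑ d ∈ B + B, 4 * m * ((T ×ˢ T).filter (fun p => p.1 + p.2 = d)).card :=
          sum_le_sum hcount
      _ = 4 * m * ∑ d ∈ B + B, ((T ×ˢ T).filter (fun p => p.1 + p.2 = d)).card := by
          rw [mul_sum]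
      _ ≤ 4 * m * T.card ^ 2 := by
          apply Nat.mul_le_mul_left
          rw [pow_two, ← card_product]
          have h3 : ∀ p ∈ (T ×ˢ T).filter (fun p => p.1 + p.2 ∈ B + B), p.1 + p.2 ∈ B + B :=
            fun p hp => (mem_filter.1 hp).2
          calc ∑ d ∈ B + B, ((T ×ˢ T).filter (fun p => p.1 + p.2 = d)).card
              = ∑ d ∈ B + B, (((T ×ˢ T).filter (fun p => p.1 + p.2 ∈ B + B)).filter
                  (fun p => p.1 + p.2 = d)).card := by
                refine sum_congr rfl fun d hd => ?_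
                congr 1
                ext p
                simp only [mem_filter]
                constructor
                · rintro ⟨h1, h2⟩
                  exact ⟨⟨h1, h2 ▸ hd⟩, h2⟩
                · rintro ⟨⟨h1, -⟩, h2⟩
                  exact ⟨h1, h2⟩
            _ = ((T ×ˢ T).filter (fun p => p.1 + p.2 ∈ B + B)).card :=
                (card_eq_sum_card_fiberwise h3).symm
            _ ≤ _ := card_filter_le _ _
  -- real inequalities
  have hTc := card_TT S θ hθ hS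
  rw [← hT] at hTc
  have hmR : (0 : ℝ) < m := by exact_mod_cast hmpos
  have hAR : (0 : ℝ) < A.card := by exact_mod_cast hApos
  have hTm : (T.card : ℝ) * m * θ ^ 2 ≤ 4 * κ * (I.card : ℝ) ^ 2 := by
    have h1 : (T.card : ℝ) * m * θ ^ 2 * S.card ≤ 4 * κ * (I.card : ℝ) ^ 2 * S.card := by
      calc (T.card : ℝ) * m * θ ^ 2 * S.card = (T.card : ℝ) * (θ ^ 2 * S.card) * m := by ring
        _ ≤ 4 * (2 : ℝ) ^ c * (m : ℝ) := mul_le_mul_of_nonneg_right hTc hmR.le
        _ = 4 * ((2 : ℝ) ^ c * m) := by ring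
        _ ≤ 4 * (κ * S.card * (I.card : ℝ) ^ 2) := by
            exact mul_le_mul_of_nonneg_left hm (by norm_num)
        _ = _ := by ring
    exact le_of_mul_le_mul_right h1 hSpos
  have hBBR : ((B + B).card : ℝ) * (A.card : ℝ) ^ 2 ≤ 4 * m * (T.card : ℝ) ^ 2 := by
    exact_mod_cast hBB
  have hI2 : (I.card : ℝ) ^ 2 ≤ κ ^ 2 * (A.card : ℝ) ^ 2 := by
    rw [← mul_pow]
    exact pow_le_pow_left₀ hIpos.le hIA 2
  have hBBm : ((B + B).card : ℝ) * m * θ ^ 4 ≤ 64 * κ ^ 4 * (I.card : ℝ) ^ 2 := by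
    have h1 : ((B + B).card : ℝ) * m * θ ^ 4 * (A.card : ℝ) ^ 2 ≤
        64 * κ ^ 4 * (I.card : ℝ) ^ 2 * (A.card : ℝ) ^ 2 := by
      calc ((B + B).card : ℝ) * m * θ ^ 4 * (A.card : ℝ) ^ 2
          = ((B + B).card : ℝ) * (A.card : ℝ) ^ 2 * (m * θ ^ 4) := by ring
        _ ≤ 4 * m * (T.card : ℝ) ^ 2 * (m * θ ^ 4) := by
            exact mul_le_mul_of_nonneg_right hBBR (by positivity)
        _ = 4 * ((T.card : ℝ) * m * θ ^ 2) ^ 2 := by ring
        _ ≤ 4 * (4 * κ * (I.card : ℝ) ^ 2) ^ 2 := by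
            have : 0 ≤ (T.card : ℝ) * m * θ ^ 2 := by positivity
            exact mul_le_mul_of_nonneg_left (pow_le_pow_left₀ this hTm 2) (by norm_num)
        _ = 64 * κ ^ 2 * (I.card : ℝ) ^ 2 * (I.card : ℝ) ^ 2 := by ring
        _ ≤ 64 * κ ^ 2 * (I.card : ℝ) ^ 2 * (κ ^ 2 * (A.card : ℝ) ^ 2) := by
            exact mul_le_mul_of_nonneg_left hI2 (by positivity)
        _ = _ := by ring
    exact le_of_mul_le_mul_right h1 (by positivity)
  have hI3 : (I.card : ℝ) ^ 2 ≤ 4 * κ ^ 2 * (B.card * m) := by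
    have h1 : (A.card : ℝ) ≤ 2 * A'.card := by exact_mod_cast hA2
    have h2 : (A'.card : ℝ) ^ 2 ≤ B.card * m := by exact_mod_cast hBm
    have h3 : (I.card : ℝ) ≤ 2 * κ * A'.card := by nlinarith
    calc (I.card : ℝ) ^ 2 ≤ (2 * κ * A'.card) ^ 2 := pow_le_pow_left₀ hIpos.le h3 2
      _ = 4 * κ ^ 2 * (A'.card : ℝ) ^ 2 := by ring
      _ ≤ _ := mul_le_mul_of_nonneg_left h2 (by positivity)
  have hθ4 : 0 < θ ^ 4 := by positivity
  refine ⟨A', hA'A, hA2, ?_, ?_⟩
  · rw [div_mul_eq_mul_div, le_div_iff₀ hθ4]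
    have h1 : ((B + B).card : ℝ) * θ ^ 4 * m ≤ 256 * κ ^ 6 * B.card * m := by
      calc ((B + B).card : ℝ) * θ ^ 4 * m = ((B + B).card : ℝ) * m * θ ^ 4 := by ring
        _ ≤ 64 * κ ^ 4 * (I.card : ℝ) ^ 2 := hBBm
        _ ≤ 64 * κ ^ 4 * (4 * κ ^ 2 * (B.card * m)) :=
            mul_le_mul_of_nonneg_left hI3 (by positivity)
        _ = _ := by ring
    exact le_of_mul_le_mul_right h1 hmR
  · rw [div_mul_eq_mul_div, le_div_iff₀ hθ4]
    have h1 : (B.card : ℝ) ≤ (B + B).card := by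
      exact_mod_cast card_le_card_add_left hBne
    calc (B.card : ℝ) * m * θ ^ 4 ≤ ((B + B).card : ℝ) * m * θ ^ 4 := by gcongr
      _ ≤ 64 * κ ^ 4 * (I.card : ℝ) ^ 2 := hBBm
      _ ≤ 256 * κ ^ 6 * (I.card : ℝ) ^ 2 := by
          have h2 : κ ^ 4 ≤ κ ^ 6 := pow_le_pow_right₀ hκ (by norm_num)
          have h3 : 0 ≤ κ ^ 6 := by positivity
          have h4 : 64 * κ ^ 4 ≤ 256 * κ ^ 6 := by linarith
          exact mul_le_mul_of_nonneg_right h4 (by positivity)

end Pool.Agent.Helper74.UP
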