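import Pool.Agent.Helper9.UP.StN

/-!
# Project UP (MP_d466de), module BI: primes of norm p and roots modulo p
-/

set_option autoImplicit false

noncomputable section

namespace Pool.Agent.Helper74.UP

open Pool.Agent.Helper9.UP
open Finset Polynomial NumberField Module

section bij

variable {K : Type} [Field K] [NumberField K]

theorem mem_pI (p : ℕ) (P : Ideal (𝓞 K)) :
    P ∈ (pI K p).filter (fun P => Ideal.absNorm P = p) ↔
      P.IsPrime ∧ P ≠ ⊥ ∧ Ideal.absNorm P = p := by
  classical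
  unfold pI
  simp only [mem_filter, Set.Finite.mem_toFinset, Set.mem_ofPred_eq]
  constructor
  · rintro ⟨⟨-, h1, h2⟩, h3⟩
    exact ⟨h1, h2, h3⟩
  · rintro ⟨h1, h2, h3⟩
    exact ⟨⟨h3.le, h1, h2⟩, h3⟩

theorem liesOver_of_absNorm (p : ℕ) (hp : p.Prime) (P : Ideal (𝓞 K)) (hP : P.IsPrime)
    (h : Ideal.absNorm P = p) : P.LiesOver (Ideal.span {(p : ℤ)}) := by
  have hmax : (Ideal.span {(p : ℤ)}).IsMaximal := by
    have : Fact p.Prime := ⟨hp⟩
    exact Int.ideal_span_isMaximal_of_prime p
  constructor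
  have h1 : (p : 𝓞 K) ∈ P := by
    rw [← h]
    exact Ideal.absNorm_mem P
  have h2 : Ideal.span {(p : ℤ)} ≤ P.under ℤ := by
    rw [Ideal.span_singleton_le_iff_mem, Ideal.mem_comap]
    simpa using h1
  have h3 : P.under ℤ ≠ ⊤ := by
    intro h4
    exact hP.ne_top (Ideal.comap_eq_top_iff.1 h4)
  exact hmax.eq_of_le h3 h2

open RingOfIntegers in
theorem card_norm_p (α : 𝓞 K) (p : ℕ) [hp : Fact p.Prime] (hpe : ¬ p ∣ exponent α) :
    ((pI K p).filter (fun P => Ideal.absNorm P = p)).card =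
      ((minpoly ℤ α).map (Int.castRingHom (ZMod p))).roots.toFinset.card := by
  classical
  set m := (minpoly ℤ α).map (Int.castRingHom (ZMod p)) with hm
  have hm0 : m ≠ 0 := map_monic_ne_zero (minpoly.monic α.isIntegral)
  let e := NumberField.Ideal.primesOverSpanEquivMonicFactorsMod (K := K) (θ := α) (p := p) hpe
  have hmem : ∀ r ∈ m.roots.toFinset, (X - C r) ∈ monicFactorsMod α p := by
    intro r hr
    rw [Multiset.mem_toFinset] at hr ⊢
    rw [Polynomial.mem_normalizedFactors_iff hm0]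
    exact ⟨irreducible_X_sub_C r, monic_X_sub_C r, dvd_iff_isRoot.2 (isRoot_of_mem_roots hr)⟩
  symm
  refine Finset.card_bij (fun r hr => ((e.symm ⟨X - C r, hmem r hr⟩ :
    (Ideal.span {(p : ℤ)}).primesOver (𝓞 K)) : Ideal (𝓞 K))) ?_ ?_ ?_
  · intro r hr
    set P := e.symm ⟨X - C r, hmem r hr⟩ with hPdef
    have hprime : (P : Ideal (𝓞 K)).IsPrime := P.2.1
    have hlies : (P : Ideal (𝓞 K)).LiesOver (Ideal.span {(p : ℤ)}) := P.2.2
    have hin := NumberField.Ideal.inertiaDeg_primesOverSpanEquivMonicFactorsMod_symm_apply'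
      hpe (hmem r hr)
    rw [natDegree_X_sub_C] at hin
    have hnorm : Ideal.absNorm (P : Ideal (𝓞 K)) = p := by
      rw [← Ideal.pow_inertiaDeg p (P : Ideal (𝓞 K)), hin, pow_one]
    rw [mem_pI]
    refine ⟨hprime, ?_, hnorm⟩
    intro h
    rw [h, Ideal.absNorm_bot] at hnorm
    exact hp.out.ne_zero hnorm.symm
  · intro r hr r' hr' h
    have h1 := e.symm.injective (Subtype.ext h)
    have h2 := congrArg Subtype.val h1
    simp only at h2
    have h3 := sub_right_injective h2
    exact C_injective h3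
  · intro P hP
    rw [mem_pI] at hP
    obtain ⟨h1, h2, h3⟩ := hP
    have hlies := liesOver_of_absNorm p hp.out P h1 h3
    let P' : (Ideal.span {(p : ℤ)}).primesOver (𝓞 K) := ⟨P, h1, hlies⟩
    have hQ := (e P').2
    have hin := NumberField.Ideal.inertiaDeg_primesOverSpanEquivMonicFactorsMod_symm_apply'
      hpe hQ
    have hsymm : (e.symm ⟨(e P').1, hQ⟩) = P' := e.symm_apply_apply P'
    change Ideal.inertiaDeg (e.symm ⟨(e P').1, hQ⟩ : Ideal (𝓞 K)) ℤ = _ at hin
    rw [hsymm] at hin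
    have hnorm : p ^ Ideal.inertiaDeg P ℤ = p := by
      rw [Ideal.pow_inertiaDeg p P, h3]
    have hdeg : Ideal.inertiaDeg P ℤ = 1 := by
      have h4 : p ^ Ideal.inertiaDeg P ℤ = p ^ 1 := by rw [hnorm, pow_one]
      exact Nat.pow_right_injective hp.out.two_le h4
    have hdeg' : ((e P').1).natDegree = 1 := by rw [← hin]; exact hdeg
    have hQ' := hQ
    rw [Multiset.mem_toFinset, Polynomial.mem_normalizedFactors_iff hm0] at hQ'
    obtain ⟨-, hmonic, hdvd⟩ := hQ'
    have hX : (e P').1 = X - C (-((e P').1.coeff 0)) := by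
      rw [C_neg, sub_neg_eq_add]
      exact hmonic.eq_X_add_C hdeg'
    have hroot : m.IsRoot (-((e P').1.coeff 0)) := by
      rw [← dvd_iff_isRoot, ← hX]
      exact hdvd
    refine ⟨-((e P').1.coeff 0), ?_, ?_⟩
    · rw [Multiset.mem_toFinset, mem_roots hm0]
      exact hroot
    · have : (⟨X - C (-((e P').1.coeff 0)), hmem _ (by
          rw [Multiset.mem_toFinset, mem_roots hm0]; exact hroot)⟩ : monicFactorsMod α p) = e P' :=
        Subtype.ext hX.symm
      rw [this, Equiv.symm_apply_apply]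

theorem rho_eq (f : ℤ[X]) (hd : 1 ≤ f.natDegree) (p : ℕ) [hp : Fact p.Prime]
    (ha : ¬ (p : ℤ) ∣ f.leadingCoeff) :
    ((f.integralNormalization).map (Int.castRingHom (ZMod p))).roots.toFinset.card = rho f p := by
  classical
  have hf0 : f ≠ 0 := by
    rintro rfl
    simp at hd
  set φ := Int.castRingHom (ZMod p) with hφ
  set m := (f.integralNormalization).map φ with hm
  have hm0 : m ≠ 0 := map_monic_ne_zero (monic_integralNormalization hf0)
  have ha' : φ f.leadingCoeff ≠ 0 := by
    intro h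
    apply ha
    rwa [hφ, eq_intCast, ZMod.intCast_zmod_eq_zero_iff_dvd] at h
  have hev : ∀ x : ZMod p, m.eval (φ f.leadingCoeff * x) =
      φ f.leadingCoeff ^ (f.natDegree - 1) * f.eval₂ φ x := by
    intro x
    rw [hm, eval_map]
    exact integralNormalization_eval₂_leadingCoeff_mul hd φ x
  have hroot : ∀ x : ZMod p, m.IsRoot (φ f.leadingCoeff * x) ↔ f.eval₂ φ x = 0 := by
    intro x
    rw [IsRoot.def, hev, mul_eq_zero]
    constructor
    · rintro (h | h)
      · exact absurd h (pow_ne_zero _ ha')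
      · exact h
    · exact Or.inr
  have hcast : ∀ r : ℕ, f.eval₂ φ (r : ZMod p) = 0 ↔ (p : ℤ) ∣ f.eval (r : ℤ) := by
    intro r
    have h1 : (r : ZMod p) = φ (r : ℤ) := by rw [hφ, eq_intCast, Int.cast_natCast]
    rw [h1, eval₂_at_apply, hφ, eq_intCast, ZMod.intCast_zmod_eq_zero_iff_dvd]
  unfold rho
  symm
  refine Finset.card_bij (fun r _ => φ f.leadingCoeff * (r : ZMod p)) ?_ ?_ ?_
  · intro r hr
    rw [mem_filter] at hr
    rw [Multiset.mem_toFinset, mem_roots hm0, hroot, hcast]
    exact hr.2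
  · intro r hr r' hr' h
    rw [mem_filter, mem_range] at hr hr'
    have h1 := mul_left_cancel₀ ha' h
    rw [ZMod.natCast_eq_natCast_iff] at h1
    exact Nat.ModEq.eq_of_lt_of_lt h1 hr.1 hr'.1
  · intro s hs
    rw [Multiset.mem_toFinset, mem_roots hm0] at hs
    have h1 : φ f.leadingCoeff * ((φ f.leadingCoeff)⁻¹ * s) = s := by
      rw [← mul_assoc, mul_inv_cancel₀ ha', one_mul]
    set x := (φ f.leadingCoeff)⁻¹ * s with hx
    refine ⟨x.val, ?_, ?_⟩
    · rw [mem_filter, mem_range]
      refine ⟨ZMod.val_lt x, ?_⟩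
      rw [← hcast, ZMod.natCast_zmod_val, ← hroot, h1]
      exact hs
    · simp only [ZMod.natCast_zmod_val]
      exact h1

end bij

section fieldgen

variable {K : Type} [Field K] [NumberField K]

/-- the polynomial is the minimal polynomial of `θ` up to a factor, so `θ` generates `K` -/
theorem minpoly_natDegree (f : ℤ[X]) (hirr : Irreducible f) (hd : 1 ≤ f.natDegree) (θ : K)
    (hθ : aeval θ f = 0) : (minpoly ℚ θ).natDegree = f.natDegree := by
  have hprim : f.IsPrimitive := hirr.isPrimitive (by omega)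
  have hirr' : Irreducible (f.map (Int.castRingHom ℚ)) :=
    (IsPrimitive.Int.irreducible_iff_irreducible_map_cast hprim).1 hirr
  have hroot : aeval θ (f.map (Int.castRingHom ℚ)) = 0 := by
    rw [← hθ]
    exact aeval_map_algebraMap ℚ θ f
  have h1 := minpoly.eq_of_irreducible hirr' hroot
  rw [← h1, natDegree_mul hirr'.ne_zero (by
    rw [Ne, C_eq_zero]
    exact inv_ne_zero (leadingCoeff_ne_zero.2 hirr'.ne_zero)), natDegree_C, add_zero]
  exact natDegree_map_eq_of_injective (Int.cast_injective) f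

theorem adjoin_eq_top (x : K) (h : (minpoly ℚ x).natDegree = finrank ℚ K) :
    Algebra.adjoin ℚ {x} = ⊤ := by
  have hint : IsIntegral ℚ x := Algebra.IsIntegral.isIntegral x
  have h1 : IntermediateField.adjoin ℚ {x} = ⊤ := by
    apply IntermediateField.eq_of_le_of_finrank_eq le_top
    rw [IntermediateField.adjoin.finrank hint, h, IntermediateField.finrank_top']
  have h2 := IntermediateField.adjoin_simple_toSubalgebra_of_isAlgebraic (F := ℚ)
    hint.isAlgebraic
  rw [← h2, h1]
  rfl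

theorem mul_minpoly_natDegree (θ : K) (a : ℤ) (ha : a ≠ 0)
    (h : (minpoly ℚ θ).natDegree = finrank ℚ K) :
    (minpoly ℚ ((a : K) * θ)).natDegree = finrank ℚ K := by
  have hint : IsIntegral ℚ θ := Algebra.IsIntegral.isIntegral θ
  have hint' : IsIntegral ℚ ((a : K) * θ) := Algebra.IsIntegral.isIntegral _
  have h1 : IntermediateField.adjoin ℚ {θ} = ⊤ := by
    apply IntermediateField.eq_of_le_of_finrank_eq le_top
    rw [IntermediateField.adjoin.finrank hint, h, IntermediateField.finrank_top']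
  have h2 : IntermediateField.adjoin ℚ {(a : K) * θ} = ⊤ := by
    rw [eq_top_iff, ← h1, IntermediateField.adjoin_simple_le_iff]
    have h3 : (a : K) * θ ∈ IntermediateField.adjoin ℚ {(a : K) * θ} :=
      IntermediateField.mem_adjoin_simple_self ℚ _
    have h4 : ((a : ℤ) : K)⁻¹ ∈ IntermediateField.adjoin ℚ {(a : K) * θ} :=
      inv_mem (intCast_mem _ a)
    have h5 := mul_mem h4 h3
    rwa [← mul_assoc, inv_mul_cancel₀ (Int.cast_ne_zero.2 ha), one_mul] at h5
  rw [← IntermediateField.adjoin.finrank hint', h2, IntermediateField.finrank_top']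

/-- the discriminant as an integer, in the conductor -/
theorem exists_disc (α : 𝓞 K) (h : (minpoly ℚ (α : K)).natDegree = finrank ℚ K) (M : ℝ)
    (hM : 1 ≤ M) (hα : ∀ φ : K →+* ℂ, ‖φ (α : K)‖ ≤ M) :
    ∃ D : ℤ, D ≠ 0 ∧ (RingOfIntegers.exponent α : ℤ) ∣ D ∧
      |(D : ℝ)| ≤ ((2 * M) ^ 2) ^ (finrank ℚ K * finrank ℚ K) := by
  classical
  have hint : IsIntegral ℚ (α : K) := Algebra.IsIntegral.isIntegral _
  have hintZ : IsIntegral ℤ (α : K) := RingOfIntegers.isIntegral_coe α
  let B : PowerBasis ℚ K := PowerBasis.ofAdjoinEqTop hint (adjoin_eq_top _ h)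
  have hgen : B.gen = (α : K) := PowerBasis.ofAdjoinEqTop_gen _ _
  have hdim : B.dim = finrank ℚ K := B.finrank.symm
  have hdint : IsIntegral ℤ (Algebra.discr ℚ B.basis) := by
    apply Algebra.discr_isIntegral
    intro i
    rw [B.basis_eq_pow, hgen]
    exact hintZ.pow _
  obtain ⟨D, hD⟩ := IsIntegrallyClosed.isIntegral_iff.1 hdint
  have hD' : (D : ℚ) = Algebra.discr ℚ B.basis := by rw [← hD]; rfl
  have hD0 : D ≠ 0 := by
    rintro rfl
    have h1 := Algebra.discr_not_zero_of_basis ℚ B.basis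
    rw [← hD'] at h1
    exact h1 (by norm_num)
  refine ⟨D, hD0, ?_, ?_⟩
  · have hcond : (algebraMap ℤ (𝓞 K) D) ∈ conductor ℤ α := by
      rw [mem_conductor_iff]
      intro b
      have hb : IsIntegral ℤ (b : K) := RingOfIntegers.isIntegral_coe b
      have h1 := Algebra.discr_mul_isIntegral_mem_adjoin (R := ℤ) ℚ (B := B)
        (by rw [hgen]; exact hintZ) hb
      rw [hgen, Algebra.adjoin_singleton_eq_range_aeval, AlgHom.mem_range] at h1
      obtain ⟨q, hq⟩ := h1
      rw [Algebra.adjoin_singleton_eq_range_aeval, AlgHom.mem_range]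
      refine ⟨q, ?_⟩
      apply RingOfIntegers.coe_injective
      have h2 : algebraMap (𝓞 K) K (aeval α q) = aeval (α : K) q :=
        (aeval_algebraMap_apply K α q).symm
      change algebraMap (𝓞 K) K (aeval α q) = algebraMap (𝓞 K) K (algebraMap ℤ (𝓞 K) D * b)
      rw [h2, hq, ← hD', Algebra.smul_def, map_mul]
      simp
    have h3 : (D : ℤ) ∈ (conductor ℤ α).under ℤ := hcond
    rw [← Int.ideal_span_absNorm_eq_self ((conductor ℤ α).under ℤ),
      Ideal.mem_span_singleton] at h3
    exact h3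
  · have hcard : Fintype.card (K →ₐ[ℚ] ℂ) = B.dim := by
      rw [AlgHom.card, hdim]
    let e : Fin B.dim ≃ (K →ₐ[ℚ] ℂ) := (Fintype.equivFinOfCardEq hcard).symm
    have hprod := Algebra.discr_powerBasis_eq_prod ℚ ℂ B e
    have hbound : ∀ i j : Fin B.dim, ‖(e j B.gen - e i B.gen) ^ 2‖ ≤ (2 * M) ^ 2 := by
      intro i j
      rw [norm_pow]
      apply pow_le_pow_left₀ (norm_nonneg _)
      rw [hgen]
      calc ‖e j (α : K) - e i (α : K)‖ ≤ ‖e j (α : K)‖ + ‖e i (α : K)‖ := norm_sub_le _ _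
        _ ≤ M + M := add_le_add (hα (e j).toRingHom) (hα (e i).toRingHom)
        _ = 2 * M := by ring
    have hone : 1 ≤ (2 * M) ^ 2 := by nlinarith
    have hnorm : |(D : ℝ)| = ‖algebraMap ℚ ℂ (Algebra.discr ℚ B.basis)‖ := by
      rw [← hD']
      simp
    rw [hnorm, hprod, norm_prod]
    calc ∏ i : Fin B.dim, ‖∏ j ∈ Ioi i, (e j B.gen - e i B.gen) ^ 2‖
        ≤ ∏ _i : Fin B.dim, ((2 * M) ^ 2) ^ (finrank ℚ K) := by
          apply prod_le_prod (fun i _ => norm_nonneg _)
          intro i _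
          rw [norm_prod]
          calc ∏ j ∈ Ioi i, ‖(e j B.gen - e i B.gen) ^ 2‖ ≤ ∏ j ∈ Ioi i, (2 * M) ^ 2 :=
                prod_le_prod (fun j _ => norm_nonneg _) (fun j _ => hbound i j)
            _ = ((2 * M) ^ 2) ^ (Ioi i).card := by rw [prod_const]
            _ ≤ ((2 * M) ^ 2) ^ (finrank ℚ K) := by
                apply pow_le_pow_right₀ hone
                rw [← hdim]
                calc (Ioi i).card ≤ (univ : Finset (Fin B.dim)).card := card_le_univ _
                  _ = B.dim := by simp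
      _ = _ := by
          rw [prod_const, card_univ, Fintype.card_fin, hdim, ← pow_mul]

end fieldgen

/-- the roots are bounded by the coefficients -/
theorem root_bound (f : ℤ[X]) (hf : f ≠ 0) (H : ℝ) (hH : ∀ k, |((f.coeff k : ℤ) : ℝ)| ≤ H)
    (z : ℂ) (hz : aeval z f = 0) : ‖z‖ ≤ H + 1 := by
  have hinj : Function.Injective (Int.castRingHom ℂ) := Int.cast_injective
  have hf' : f.map (Int.castRingHom ℂ) ≠ 0 := (Polynomial.map_ne_zero_iff hinj).2 hf
  have hroot : (f.map (Int.castRingHom ℂ)).IsRoot z := by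
    rw [IsRoot.def, eval_map]
    exact hz
  have h1 := hroot.norm_lt_cauchyBound hf'
  have hH0 : 0 ≤ H := (abs_nonneg _).trans (hH 0)
  have hlead : 1 ≤ ‖(f.map (Int.castRingHom ℂ)).leadingCoeff‖ := by
    rw [leadingCoeff_map_of_injective hinj]
    have : f.leadingCoeff ≠ 0 := leadingCoeff_ne_zero.2 hf
    have h2 : (1 : ℝ) ≤ |(f.leadingCoeff : ℝ)| := by
      exact_mod_cast Int.one_le_abs this
    simpa using h2
  have h3 : ((f.map (Int.castRingHom ℂ)).cauchyBound : ℝ) ≤ H + 1 := by
    unfold cauchyBound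
    push_cast
    have h4 : ((sup (range (f.map (Int.castRingHom ℂ)).natDegree)
        (fun x => ‖(f.map (Int.castRingHom ℂ)).coeff x‖₊) : NNReal) : ℝ) ≤ H := by
      have h5 : sup (range (f.map (Int.castRingHom ℂ)).natDegree)
          (fun x => ‖(f.map (Int.castRingHom ℂ)).coeff x‖₊) ≤ H.toNNReal := by
        apply Finset.sup_le
        intro k _
        apply NNReal.le_toNNReal_of_coe_le
        rw [coe_nnnorm, coeff_map]
        simpa using hH k
      calc _ ≤ ((H.toNNReal : NNReal) : ℝ) := NNReal.coe_le_coe.2 h5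
        _ = H := Real.coe_toNNReal H hH0
    have h6 : (0 : ℝ) < ‖(f.map (Int.castRingHom ℂ)).leadingCoeff‖ := by linarith
    have h7 : ((sup (range (f.map (Int.castRingHom ℂ)).natDegree)
        (fun x => ‖(f.map (Int.castRingHom ℂ)).coeff x‖₊) : NNReal) : ℝ) /
        ‖(f.map (Int.castRingHom ℂ)).leadingCoeff‖ ≤ H := by
      rw [div_le_iff₀ h6]
      nlinarith
    simpa using h7
  have h8 : ‖z‖ < ((f.map (Int.castRingHom ℂ)).cauchyBound : ℝ) := by
    exact_mod_cast h1
  linarith

/-- Module BI. -/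
theorem hBI : StBI := by
  refine ⟨9, 1, by norm_num, ?_⟩
  intro Λ hΛ f hf K _ _ θ hθ hdeg
  classical
  have hf0 : f ≠ 0 := hf.irr.ne_zero
  set a := f.leadingCoeff with ha
  have ha0 : a ≠ 0 := leadingCoeff_ne_zero.2 hf0
  set H := Real.exp Λ with hH
  have hH1 : 1 ≤ H := Real.one_le_exp (by linarith)
  have hdK : finrank ℚ K = f.natDegree := hdeg
  -- the integer `α = a θ`
  have hroot : aeval ((a : K) * θ) f.integralNormalization = 0 := by
    have h1 := integralNormalization_aeval_eq_zero (S := ℤ) (A := K) (z := θ) hθ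
      (fun x hx => by simpa using hx)
    simpa using h1
  have hint : IsIntegral ℤ ((a : K) * θ) :=
    ⟨f.integralNormalization, monic_integralNormalization hf0, hroot⟩
  let α : 𝓞 K := ⟨(a : K) * θ, hint⟩
  have hαK : ((α : 𝓞 K) : K) = (a : K) * θ := rfl
  have hθdeg : (minpoly ℚ θ).natDegree = finrank ℚ K := by
    rw [hdK]
    exact minpoly_natDegree f hf.irr hf.deg θ hθ
  have hαdeg : (minpoly ℚ (α : K)).natDegree = finrank ℚ K := by
    rw [hαK]
    exact mul_minpoly_natDegree θ a ha0 hθdeg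
  -- the minimal polynomial
  have hmin : minpoly ℤ α = f.integralNormalization := by
    have h1 : minpoly ℤ (α : K) = minpoly ℤ α := RingOfIntegers.minpoly_coe α
    have h2 : minpoly ℚ (α : K) = (minpoly ℤ (α : K)).map (algebraMap ℤ ℚ) :=
      minpoly.isIntegrallyClosed_eq_field_fractions' ℚ (RingOfIntegers.isIntegral_coe α)
    have h3 : (minpoly ℤ (α : K)).natDegree = f.natDegree := by
      rw [← hdK, ← hαdeg, h2]
      exact (natDegree_map_eq_of_injective Int.cast_injective _).symm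
    have h4 : minpoly ℤ (α : K) ∣ f.integralNormalization :=
      minpoly.isIntegrallyClosed_dvd (RingOfIntegers.isIntegral_coe α) hroot
    rw [← h1]
    exact (eq_of_monic_of_dvd_of_natDegree_le
      (minpoly.monic (RingOfIntegers.isIntegral_coe α)) (monic_integralNormalization hf0) h4
      (by rw [h3, natDegree_integralNormalization])).symm
  -- bounds for the conjugates
  have hαb : ∀ φ : K →+* ℂ, ‖φ (α : K)‖ ≤ 2 * H ^ 2 := by
    intro φ
    have h1 : aeval (φ θ) f = 0 := by
      have h2 : φ (aeval θ f) = aeval (φ θ) f := by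
        rw [aeval_def, aeval_def, hom_eval₂]
        congr 1
        exact RingHom.ext_int _ _
      rw [← h2, hθ, map_zero]
    have h3 := root_bound f hf0 H hf.coe (φ θ) h1
    have h4 : ‖((a : ℤ) : ℂ)‖ ≤ H := by
      have := hf.coe f.natDegree
      simpa using this
    rw [hαK, map_mul, map_intCast, norm_mul]
    calc ‖((a : ℤ) : ℂ)‖ * ‖φ θ‖ ≤ H * (H + 1) :=
          mul_le_mul h4 h3 (norm_nonneg _) (by linarith)
      _ ≤ 2 * H ^ 2 := by nlinarith
  obtain ⟨D, hD0, hDe, hDb⟩ := exists_disc α hαdeg (2 * H ^ 2) (by nlinarith) hαb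
  have hapos : 1 ≤ |(a : ℝ)| := by exact_mod_cast Int.one_le_abs ha0
  have hDpos : 1 ≤ |(D : ℝ)| := by exact_mod_cast Int.one_le_abs hD0
  refine ⟨a.natAbs * D.natAbs, ?_, ?_, ?_⟩
  · exact Nat.mul_pos (Int.natAbs_pos.2 ha0) (Int.natAbs_pos.2 hD0)
  · have h1 : ((a.natAbs * D.natAbs : ℕ) : ℝ) = |(a : ℝ)| * |(D : ℝ)| := by
      push_cast
      rw [Nat.cast_natAbs, Nat.cast_natAbs]
      push_cast
      rfl
    rw [h1, Real.log_mul (by linarith) (by linarith)]
    have h2 : Real.log |(a : ℝ)| ≤ Λ := by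
      rw [Real.log_le_iff_le_exp (by linarith)]
      exact hf.coe f.natDegree
    have h3 : Real.log |(D : ℝ)| ≤ (finrank ℚ K * finrank ℚ K : ℕ) * (2 * (2 * Λ + 2)) := by
      calc Real.log |(D : ℝ)| ≤ Real.log (((2 * (2 * H ^ 2)) ^ 2) ^ (finrank ℚ K * finrank ℚ K)) :=
            Real.log_le_log (by linarith) hDb
        _ = (finrank ℚ K * finrank ℚ K : ℕ) * (2 * Real.log (2 * (2 * H ^ 2))) := by
            rw [Real.log_pow, Real.log_pow]
            push_cast
            ring
        _ ≤ _ := by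
            apply mul_le_mul_of_nonneg_left _ (Nat.cast_nonneg _)
            have h4 : Real.log (2 * (2 * H ^ 2)) ≤ 2 * Λ + 2 := by
              rw [Real.log_le_iff_le_exp (by positivity)]
              have h5 : Real.exp (2 * Λ + 2) = H ^ 2 * Real.exp 2 := by
                rw [hH, ← Real.exp_nat_mul, ← Real.exp_add]
                congr 1
              rw [h5]
              have h6 : 4 ≤ Real.exp 2 := by
                have h7 : Real.exp 2 = Real.exp 1 * Real.exp 1 := by
                  rw [← Real.exp_add]; norm_num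
                have h8 := Real.exp_one_gt_d9
                rw [h7]
                nlinarith
              nlinarith [sq_nonneg H, mul_le_mul_of_nonneg_left h6 (sq_nonneg H)]
            linarith
    have hdle : (finrank ℚ K : ℝ) ≤ Λ := by rw [hdK]; exact hf.degLe
    have hd0 : (0 : ℝ) ≤ (finrank ℚ K : ℝ) := Nat.cast_nonneg _
    have h9 : ((finrank ℚ K * finrank ℚ K : ℕ) : ℝ) ≤ Λ ^ 2 := by
      push_cast
      nlinarith
    have h10 : ((finrank ℚ K * finrank ℚ K : ℕ) : ℝ) * (2 * (2 * Λ + 2)) ≤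
        Λ ^ 2 * (2 * (2 * Λ + 2)) := mul_le_mul_of_nonneg_right h9 (by linarith)
    have h11 : Λ ≤ Λ ^ 3 := by nlinarith [mul_nonneg (sq_nonneg Λ) (sub_nonneg.2 hΛ)]
    have h12 : Λ ^ 2 ≤ Λ ^ 3 := by nlinarith [mul_nonneg (sq_nonneg Λ) (sub_nonneg.2 hΛ)]
    nlinarith
  · intro p hp hpΔ
    have : Fact p.Prime := ⟨hp⟩
    have hpa : ¬ (p : ℤ) ∣ f.leadingCoeff := by
      intro h
      apply hpΔ
      exact Dvd.dvd.mul_right (Int.natCast_dvd.1 h) _
    have hpe : ¬ p ∣ RingOfIntegers.exponent α := by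
      intro h
      apply hpΔ
      have h1 : (p : ℤ) ∣ D := (Int.natCast_dvd_natCast.2 h).trans hDe
      exact Dvd.dvd.mul_left (Int.natCast_dvd.1 h1) _
    rw [card_norm_p α p hpe, hmin]
    exact rho_eq f hf.deg p hpa

end Pool.Agent.Helper74.UP
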